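import Mathlib
import Pool.Agent.H96.ZF.Second

/-!
# Subset sums of zero-sum-free sets: the exact value of `f(k)` for all `k ≥ 10 ^ 145`, and explicit
bounds for every `k`

`f(k)` is the least number of nonempty subset sums of a zero-sum-free `k`-element subset of a finite
abelian group. The library (`MP_0b126a_co.ExactAllGroups`) has `f(k) = ⌊k²/2⌋ + 1` for all
sufficiently large `k`, without a threshold.
-/

set_option autoImplicit false

namespace Pool.Agent.Results.MP_0b126a_co.ExplicitThreshold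

universe u

/-- The set of sums of the nonempty subsets of `S` (each element used at most once). -/
def Sums {G : Type u} [AddCommGroup G] (S : Finset G) : Set G :=
  {s | ∃ B : Finset G, B ⊆ S ∧ B.Nonempty ∧ ∑ b ∈ B, b = s}

/-- `S` is zero-sum-free: no nonempty subset of `S` has sum zero. -/
def ZeroSumFree {G : Type u} [AddCommGroup G] (S : Finset G) : Prop := (0 : G) ∉ Sums S

/-- All values taken by the number of nonempty subset sums of `S`, as `S` runs over the
zero-sum-free `k`-element subsets of all finite abelian groups. -/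
def values (k : ℕ) : Set ℕ :=
  {n | ∃ (G : Type) (_ : AddCommGroup G) (_ : Finite G) (S : Finset G),
    S.card = k ∧ ZeroSumFree S ∧ (Sums S).ncard = n}

/-- `f(k)`: the minimum number of nonempty subset sums of a zero-sum-free `k`-element set. -/
noncomputable def f (k : ℕ) : ℕ := sInf (values k)

/-- The same values for finite abelian groups of odd order only. -/
def oddValues (k : ℕ) : Set ℕ :=
  {n | ∃ (G : Type) (_ : AddCommGroup G) (_ : Finite G) (S : Finset G),
    Odd (Nat.card G) ∧ S.card = k ∧ ZeroSumFree S ∧ (Sums S).ncard = n}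

/-- The minimum number of nonempty subset sums of a zero-sum-free `k`-element subset of a finite
abelian group of odd order. -/
noncomputable def fOdd (k : ℕ) : ℕ := sInf (oddValues k)

theorem exists_value_le (k : ℕ) : ∃ n ∈ values k, n ≤ k ^ 2 / 2 + 1 := by
  classical
  obtain ⟨A, hA, hA2, hA3⟩ := Pool.Agent.Helper398.example_upper k
  have h0 : (0 : ZMod (k ^ 2 + 1) × ZMod 2) ∉ Sums A := by
    rintro ⟨B, hB, hne, hs⟩
    exact hA2 B hB hne hs
  have h1 := Pool.Agent.Helper398.ncard_bridge A (Sums A) (fun s => Iff.rfl) h0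
  exact ⟨(Sums A).ncard, ⟨ZMod (k ^ 2 + 1) × ZMod 2, inferInstance, inferInstance, A, hA, h0,
    rfl⟩, by omega⟩

theorem f_mem (k : ℕ) : f k ∈ values k := by
  obtain ⟨n, hn, -⟩ := exists_value_le k
  exact Nat.sInf_mem ⟨n, hn⟩

theorem f_le (k : ℕ) : f k ≤ k ^ 2 / 2 + 1 := by
  obtain ⟨n, hn, hn2⟩ := exists_value_le k
  exact (Nat.sInf_le hn).trans hn2

/-- The sums of the nonempty sublists of a list. -/
def sl {G : Type} [Add G] : List G → List G
  | [] => []
  | a :: l => a :: (sl l ++ (sl l).map (fun x => a + x))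

theorem mem_sl {G : Type} [AddCommGroup G] [DecidableEq G] (l : List G) :
    ∀ B ⊆ l.toFinset, B.Nonempty → ∑ b ∈ B, b ∈ sl l := by
  induction l with
  | nil =>
    intro B hB hne
    simp at hB
    subst hB
    simp at hne
  | cons a l ih =>
    intro B hB hne
    rw [List.toFinset_cons] at hB
    unfold sl
    rw [List.mem_cons, List.mem_append, List.mem_map]
    by_cases ha : a ∈ B
    · have h1 : B.erase a ⊆ l.toFinset := by
        intro x hx
        rw [Finset.mem_erase] at hx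
        exact (Finset.mem_insert.1 (hB hx.2)).resolve_left hx.1
      have h2 : a + ∑ b ∈ B.erase a, b = ∑ b ∈ B, b := Finset.add_sum_erase B (fun b => b) ha
      by_cases he : (B.erase a).Nonempty
      · exact Or.inr (Or.inr ⟨_, ih _ h1 he, h2⟩)
      · rw [Finset.not_nonempty_iff_eq_empty] at he
        rw [he, Finset.sum_empty, add_zero] at h2
        exact Or.inl h2.symm
    · exact Or.inr (Or.inl (ih B (fun x hx => (Finset.mem_insert.1 (hB hx)).resolve_left
        (fun h => ha (h ▸ hx))) hne))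

/-- A zero-sum-free list of `k` distinct elements of `ZMod N` gives `f k ≤ N - 1`. -/
theorem f_le_of (N k : ℕ) [NeZero N] (l : List (ZMod N)) (hS : l.toFinset.card = k)
    (hZ : (0 : ZMod N) ∉ sl l) : f k ≤ N - 1 := by
  classical
  have h0 : (0 : ZMod N) ∉ Sums l.toFinset := by
    rintro ⟨B, hB, hne, hs⟩
    exact hZ (hs ▸ mem_sl l B hB hne)
  have h1 : (Sums l.toFinset).ncard ≤ N - 1 := by
    have h2 : Sums l.toFinset ⊆
        ((Finset.univ.erase (0 : ZMod N) : Finset (ZMod N)) : Set (ZMod N)) := by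
      intro s hs
      rw [Finset.mem_coe, Finset.mem_erase]
      exact ⟨fun h => h0 (h ▸ hs), Finset.mem_univ _⟩
    have h3 := Set.ncard_le_ncard h2 (Finset.finite_toSet _)
    rw [Set.ncard_coe_finset, Finset.card_erase_of_mem (Finset.mem_univ _), Finset.card_univ,
      ZMod.card] at h3
    exact h3
  have h4 : (Sums l.toFinset).ncard ∈ values k :=
    ⟨ZMod N, inferInstance, inferInstance, l.toFinset, hS, h0, rfl⟩
  exact (Nat.sInf_le h4).trans h1

theorem f_four : f 4 ≤ 8 :=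
  f_le_of 9 4 [1, 3, 4, 7] (by decide) (by decide)

set_option maxRecDepth 20000 in
theorem f_seven : f 7 ≤ 24 :=
  f_le_of 25 7 [1, 5, 6, 10, 11, 16, 21] (by decide) (by decide)

theorem sum_le_gauss (k : ℕ) (C : Finset ℕ) (hC : C ⊆ Finset.Icc 1 k) :
    ∑ i ∈ C, i ≤ k * (k + 1) / 2 := by
  have h1 : ∑ i ∈ C, i ≤ ∑ i ∈ Finset.range (k + 1), i := by
    apply Finset.sum_le_sum_of_subset
    intro x hx
    have := Finset.mem_Icc.1 (hC hx)
    exact Finset.mem_range.2 (by omega)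
  rw [Finset.sum_range_id, Nat.add_sub_cancel, mul_comm] at h1
  exact h1

/-- The set `{1, …, k}` in the cyclic group of odd order `k (k + 1) + 1`. -/
theorem exists_oddValue_le (k : ℕ) : ∃ n ∈ oddValues k, n ≤ k * (k + 1) / 2 := by
  classical
  obtain ⟨N, hN⟩ : ∃ N, N = k * (k + 1) + 1 := ⟨_, rfl⟩
  have hN0 : NeZero N := ⟨by omega⟩
  have hodd : Odd N := by
    rw [hN]
    exact (Nat.even_mul_succ_self k).add_one
  have hkN : k < N := by rw [hN]; nlinarith
  have hval : ∀ a b : ℕ, a < N → b < N → (a : ZMod N) = b → a = b := by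
    intro a b ha hb h
    have := congrArg ZMod.val h
    rwa [ZMod.val_natCast_of_lt ha, ZMod.val_natCast_of_lt hb] at this
  obtain ⟨S, hS⟩ : ∃ S : Finset (ZMod N), S = (Finset.Icc 1 k).image (fun i : ℕ => (i : ZMod N)) :=
    ⟨_, rfl⟩
  have hinj : Set.InjOn (fun i : ℕ => (i : ZMod N)) (Finset.Icc 1 k : Finset ℕ) := by
    intro a ha b hb h
    rw [Finset.mem_coe, Finset.mem_Icc] at ha hb
    exact hval a b (by omega) (by omega) h
  have hcard : S.card = k := by
    rw [hS, Finset.card_image_of_injOn hinj, Nat.card_Icc]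
    omega
  have hsum : ∀ s ∈ Sums S, ∃ n : ℕ, 1 ≤ n ∧ n ≤ k * (k + 1) / 2 ∧ (n : ZMod N) = s := by
    rintro s ⟨B, hB, hne, rfl⟩
    rw [hS, Finset.subset_image_iff] at hB
    obtain ⟨C, hC, rfl⟩ := hB
    have hC' : C ⊆ Finset.Icc 1 k := by exact_mod_cast hC
    refine ⟨∑ i ∈ C, i, ?_, sum_le_gauss k C hC', ?_⟩
    · obtain ⟨c, hc⟩ := Finset.image_nonempty.1 hne
      have h1 := Finset.mem_Icc.1 (hC' hc)
      have h2 : c ≤ ∑ i ∈ C, i := Finset.single_le_sum (fun i _ => Nat.zero_le i) hc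
      omega
    · rw [Finset.sum_image (fun x hx y hy h => hinj (hC hx) (hC hy) h)]
      push_cast
      rfl
  have h0 : (0 : ZMod N) ∉ Sums S := by
    intro h
    obtain ⟨n, h1, h2, h3⟩ := hsum 0 h
    have h4 := hval n 0 (by omega) (by omega) (by rw [h3, Nat.cast_zero])
    omega
  refine ⟨(Sums S).ncard, ⟨ZMod N, inferInstance, inferInstance, S, ?_, hcard, h0, rfl⟩, ?_⟩
  · rw [Nat.card_eq_fintype_card, ZMod.card]
    exact hodd
  · have h2 : Sums S ⊆ (((Finset.Icc 1 (k * (k + 1) / 2)).image (fun i : ℕ => (i : ZMod N)) :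
        Finset (ZMod N)) : Set (ZMod N)) := by
      intro s hs
      obtain ⟨n, h1, h2, h3⟩ := hsum s hs
      rw [Finset.mem_coe, Finset.mem_image]
      exact ⟨n, Finset.mem_Icc.2 ⟨h1, h2⟩, h3⟩
    have h3 := Set.ncard_le_ncard h2 (Finset.finite_toSet _)
    rw [Set.ncard_coe_finset] at h3
    refine h3.trans (Finset.card_image_le.trans ?_)
    rw [Nat.card_Icc]
    omega

theorem fOdd_mem (k : ℕ) : fOdd k ∈ oddValues k := by
  obtain ⟨n, hn, -⟩ := exists_oddValue_le k
  exact Nat.sInf_mem ⟨n, hn⟩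

theorem fOdd_le (k : ℕ) : fOdd k ≤ k * (k + 1) / 2 := by
  obtain ⟨n, hn, hn2⟩ := exists_oddValue_le k
  exact (Nat.sInf_le hn).trans hn2

/-- (1) For every `k ≥ 10 ^ 145`: `f(k) = ⌊k²/2⌋ + 1`, the minimum is attained, and every
zero-sum-free `k`-element subset of every abelian group, finite or infinite, has at least
`⌊k²/2⌋ + 1` distinct nonempty subset sums. (2) For every `k` the minimum `f(k)` is attained,
`k²/2 - 3200 k^(7/4) ≤ f(k) ≤ ⌊k²/2⌋ + 1`, and the lower bound holds for the zero-sum-free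
`k`-element subsets of all abelian groups. (3) The formula `⌊k²/2⌋ + 1` fails for `k = 4` and for
`k = 7`: there `f(4) ≤ 8` and `f(7) ≤ 24`. (4) In finite abelian groups of odd order the minimum
`fOdd(k)` is larger by a linear term: for every `k ≥ 10 ^ 145` it is at most `k²/2 + k/2` and at
least `k²/2 + k/2 - 10 ^ 9 k^(13/14)` and `k²/2 + (99/200) k + 1`, so `fOdd(k)` is
`k²/2 + k/2 + O(k^(13/14))`; the two lower bounds hold in all abelian groups, finite or
infinite, without elements of order two. -/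
theorem result :
    (∀ k : ℕ, 10 ^ 145 ≤ k →
      f k = k ^ 2 / 2 + 1 ∧ k ^ 2 / 2 + 1 ∈ values k ∧
      ∀ (G : Type u) [AddCommGroup G] (S : Finset G), S.card = k → ZeroSumFree S →
        k ^ 2 / 2 + 1 ≤ (Sums S).ncard) ∧
    (∀ k : ℕ, f k ∈ values k ∧ f k ≤ k ^ 2 / 2 + 1 ∧
      (k : ℝ) ^ 2 / 2 - 3200 * (k : ℝ) ^ (7 / 4 : ℝ) ≤ f k ∧
      ∀ (G : Type u) [AddCommGroup G] (S : Finset G), S.card = k → ZeroSumFree S →
        (k : ℝ) ^ 2 / 2 - 3200 * (k : ℝ) ^ (7 / 4 : ℝ) ≤ (Sums S).ncard) ∧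
    (f 4 ≤ 8 ∧ f 7 ≤ 24) ∧
    (∀ k : ℕ, 10 ^ 145 ≤ k → fOdd k ∈ oddValues k ∧ fOdd k ≤ k * (k + 1) / 2 ∧
      (k : ℝ) ^ 2 / 2 + k / 2 - 10 ^ 9 * (k : ℝ) ^ (13 / 14 : ℝ) ≤ fOdd k ∧
      (k : ℝ) ^ 2 / 2 + 99 / 200 * k + 1 ≤ fOdd k ∧
      ∀ (G : Type u) [AddCommGroup G], (∀ x : G, x + x = 0 → x = 0) →
        ∀ S : Finset G, S.card = k → ZeroSumFree S →
          (k : ℝ) ^ 2 / 2 + k / 2 - 10 ^ 9 * (k : ℝ) ^ (13 / 14 : ℝ) ≤ (Sums S).ncard ∧
          (k : ℝ) ^ 2 / 2 + 99 / 200 * k + 1 ≤ (Sums S).ncard) := by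
  refine ⟨fun k hk => ?_, fun k => ?_, ⟨f_four, f_seven⟩, fun k hk => ?_⟩
  · have hlow : k ^ 2 / 2 + 1 ≤ f k := by
      obtain ⟨G, _, _, S, hS, hZ, hf⟩ := f_mem k
      have h1 := Pool.Agent.H96.ZF.exact_ncard' G S (Sums S) (fun s => Iff.rfl) hZ
        (by rw [hS]; exact hk)
      rw [hS, hf] at h1
      exact h1
    have he : f k = k ^ 2 / 2 + 1 := le_antisymm (f_le k) hlow
    refine ⟨he, he ▸ f_mem k, ?_⟩
    intro G _ S hS hZ
    have h1 := Pool.Agent.H96.ZF.exact_ncard' G S (Sums S) (fun s => Iff.rfl) hZ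
      (by rw [hS]; exact hk)
    rwa [hS] at h1
  · refine ⟨f_mem k, f_le k, ?_, ?_⟩
    · obtain ⟨G, _, _, S, hS, hZ, hf⟩ := f_mem k
      have h1 := Pool.Agent.H96.ZF.explicit_ncard G S (Sums S) (fun s => Iff.rfl) hZ
      rw [hS, hf] at h1
      exact h1
    · intro G _ S hS hZ
      have h1 := Pool.Agent.H96.ZF.explicit_ncard G S (Sums S) (fun s => Iff.rfl) hZ
      rwa [hS] at h1
  · have hodd2 : ∀ (H : Type) [AddCommGroup H] [Finite H], Odd (Nat.card H) →
        ∀ x : H, x + x = 0 → x = 0 := by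
      intro H _ _ hH x hx
      apply Pool.Agent.H96.ZF.eq_zero_of_coprime x 2 (Nat.card H) (Nat.coprime_two_left.2 hH)
      · rw [two_nsmul]; exact hx
      · exact card_nsmul_eq_zero'
    have key : ∀ (G : Type u) [AddCommGroup G], (∀ x : G, x + x = 0 → x = 0) →
        ∀ S : Finset G, S.card = k → ZeroSumFree S →
          (k : ℝ) ^ 2 / 2 + k / 2 - 10 ^ 9 * (k : ℝ) ^ (13 / 14 : ℝ) ≤ (Sums S).ncard ∧
          (k : ℝ) ^ 2 / 2 + 99 / 200 * k + 1 ≤ (Sums S).ncard := by
      intro G _ h2 S hS hZ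
      have h1 := Pool.Agent.H96.ZF.noTwo_ncard G h2 S (Sums S) (fun s => Iff.rfl) hZ
        (by rw [hS]; exact hk)
      have h3 := Pool.Agent.H96.ZF.noTwo_power G h2 S (Sums S) (fun s => Iff.rfl) hZ
        (by rw [hS]; exact hk)
      rw [hS] at h1 h3
      exact ⟨h3, h1⟩
    obtain ⟨G, _, _, S, hodd, hS, hZ, hf⟩ := fOdd_mem k
    have h1 := Pool.Agent.H96.ZF.noTwo_ncard G (hodd2 G hodd) S (Sums S) (fun s => Iff.rfl) hZ
      (by rw [hS]; exact hk)
    have h3 := Pool.Agent.H96.ZF.noTwo_power G (hodd2 G hodd) S (Sums S) (fun s => Iff.rfl) hZ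
      (by rw [hS]; exact hk)
    rw [hS, hf] at h1 h3
    exact ⟨fOdd_mem k, fOdd_le k, h3, h1, key⟩

end Pool.Agent.Results.MP_0b126a_co.ExplicitThreshold
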